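import Mathlib
import Pool.Agent.V11320.CW.Walk
import Pool.Agent.V11258.CW1

set_option autoImplicit false

namespace Pool.Agent.Results.MP_4881ff_pr.DimOne

open MeasureTheory ProbabilityTheory Filter Topology Pool.Agent.V11320.CW

/-- Dimension one: a conservative random walk with summable update probabilities is strongly
transient, with non-summable ones it almost surely does not escape to infinity; hence strong
transience is monotone in the update probabilities. (`p (n+1)`, `n ≥ 0`, is the problem's
`p_{n+2}`; `p 0` is unused.) -/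
theorem result :
    (∀ p : ℕ → unitInterval, (Summable fun n => (p (n+1) : ℝ)) → StrTrans 1 p) ∧
    (∀ p : ℕ → unitInterval, (¬ Summable fun n => (p (n+1) : ℝ)) → ∀ᵐ w ∂(crw 1 p),
      ¬ Tendsto (fun n => Real.sqrt (∑ j, (pos w n j : ℝ)^2)) atTop atTop) ∧
    ∀ p p' : ℕ → unitInterval, (∀ n, p' n ≤ p n) → StrTrans 1 p → StrTrans 1 p' :=
  Pool.Agent.V11258.CW1.main

end Pool.Agent.Results.MP_4881ff_pr.DimOne
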