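import Mathlib
import Pool.Agent.V11320.CW.ThreeD

set_option autoImplicit false

namespace Pool.Agent.Results.MP_4881ff_pr.DimThree

open MeasureTheory ProbabilityTheory Filter Topology Pool.Agent.V11320.CW

/-- In every dimension `d ≥ 3` every conservative random walk is strongly transient; hence strong
transience is (trivially) monotone in the update probabilities. -/
theorem result (d : ℕ) [NeZero d] (hd : 3 ≤ d) :
    (∀ p : ℕ → unitInterval, StrTrans d p) ∧
      ∀ p p' : ℕ → unitInterval, (∀ n, p' n ≤ p n) → StrTrans d p → StrTrans d p' := by
  have h : ∀ p : ℕ → unitInterval, StrTrans d p := by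
    intro p
    rcases Nat.lt_or_ge 3 d with h | h
    · exact four h p
    · obtain rfl : d = 3 := le_antisymm h hd
      exact three_d p
  exact ⟨h, fun _ p' _ _ => h p'⟩

end Pool.Agent.Results.MP_4881ff_pr.DimThree
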